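import Mathlib
import Pool.Agent.V11145.Inertia

/-!
# MP_97e4cf_co : inertias of full-rank completions and bicolorings of the complement

A counterexample on six vertices: the complement is a star `K_{1,4}` together with an isolated
vertex, and some partial matrix has only nonsingular completions, all of inertia `(3,3,0)`.
-/

namespace Pool.Agent.Results.MP_97e4cf_co.InertiaBicoloringDisproof

open Matrix Pool.Agent.V11145.Inertia

/-- A semisimple graph on `Fin N` is given by its set of edges and loops. A partial matrix is a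
real function on this set. -/
abbrev PartialMatrix {N : ℕ} (E : Set (Sym2 (Fin N))) : Type := E → ℝ

/-- `A` is a completion of the partial matrix `M`: a real symmetric matrix agreeing with `M`. -/
def IsCompletion {N : ℕ} {E : Set (Sym2 (Fin N))} (M : PartialMatrix E)
    (A : Matrix (Fin N) (Fin N) ℝ) : Prop :=
  A.IsSymm ∧ ∀ (i j : Fin N) (h : s(i, j) ∈ E), A i j = M ⟨s(i, j), h⟩

/-- `M` is minimally completable to rank `r`. -/
def MinimallyCompletable {N : ℕ} {E : Set (Sym2 (Fin N))} (M : PartialMatrix E) (r : ℕ) : Prop :=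
  (∃ A, IsCompletion M A ∧ A.rank = r) ∧ ∀ A, IsCompletion M A → r ≤ A.rank

/-- `r` is a typical rank of the graph `E`. -/
def IsTypicalRank {N : ℕ} (E : Set (Sym2 (Fin N))) (r : ℕ) : Prop :=
  ∃ U : Set (PartialMatrix E), IsOpen U ∧ U.Nonempty ∧ ∀ M ∈ U, MinimallyCompletable M r

/-- `E` is full-rank typical. -/
def FullRankTypical {N : ℕ} (E : Set (Sym2 (Fin N))) : Prop := IsTypicalRank E N

/-- The symmetric matrix `A` has exactly `m` positive and `n` negative eigenvalues (counted with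
multiplicity). -/
def HasInertia {N : ℕ} (A : Matrix (Fin N) (Fin N) ℝ) (m n : ℕ) : Prop :=
  ∃ h : A.IsHermitian, (Finset.univ.filter (fun i => 0 < h.eigenvalues i)).card = m ∧
    (Finset.univ.filter (fun i => h.eigenvalues i < 0)).card = n

/-- `c` is a proper bicoloring of the complement of `E` (`true` is red, `false` is blue): no edge
and no loop of the complement has both ends of one colour. -/
def IsProperBicoloring {N : ℕ} (E : Set (Sym2 (Fin N))) (c : Fin N → Bool) : Prop :=
  ∀ i j : Fin N, s(i, j) ∉ E → c i ≠ c j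

/-- The statement Q1. -/
def Q1 : Prop :=
  ∀ (N : ℕ), 1 ≤ N → ∀ (E : Set (Sym2 (Fin N))), FullRankTypical E →
    ∀ (M : PartialMatrix E), MinimallyCompletable M N →
      ∀ m n : ℕ, m + n = N → (∀ A, IsCompletion M A → HasInertia A m n) →
        ∃ c : Fin N → Bool, IsProperBicoloring E c ∧
          (Finset.univ.filter (fun i => c i = true)).card = m ∧
          (Finset.univ.filter (fun i => c i = false)).card = n

/-- The graph `G` of the counterexample: its complement is the star with centre `0` and leaves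
`1, 2, 3, 4`, together with the isolated vertex `5`; all loops are in `G`. -/
def E0 : Set (Sym2 (Fin 6)) := {e | e ≠ s(0, 1) ∧ e ≠ s(0, 2) ∧ e ≠ s(0, 3) ∧ e ≠ s(0, 4)}

lemma mem_E0_iff (i j : Fin 6) :
    s(i, j) ∈ E0 ↔ ¬ ((i = 0 ∧ (j = 1 ∨ j = 2 ∨ j = 3 ∨ j = 4)) ∨
      (j = 0 ∧ (i = 1 ∨ i = 2 ∨ i = 3 ∨ i = 4))) := by
  unfold E0
  revert i j
  simp only [Set.mem_ofPred_eq]
  decide

/-- The open set of partial matrices used to show that `E0` is full-rank typical. -/
def U0 : Set (PartialMatrix E0) := Set.pi Set.univ (fun e =>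
  if e.1 = s(0, 0) then Set.Iio 0 else if e.1.IsDiag then Set.Ioi 1 else Set.Ioo (-1/10) (1/10))

lemma U0_open : IsOpen U0 := by
  unfold U0
  apply isOpen_set_pi Set.finite_univ
  intro e _
  split_ifs
  · exact isOpen_Iio
  · exact isOpen_Ioi
  · exact isOpen_Ioo

lemma U0_nonempty : U0.Nonempty := by
  unfold U0
  rw [Set.univ_pi_nonempty_iff]
  intro e
  split_ifs
  · exact ⟨-1, by norm_num⟩
  · exact ⟨2, by norm_num⟩
  · exact ⟨0, by norm_num⟩

lemma form_pos (b : Fin 5 → Fin 5 → ℝ) (hd : ∀ i, 1 < b i i)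
    (ho : ∀ i j, i ≠ j → |b i j| < 1 / 10) (v : Fin 5 → ℝ) :
    (1 / 2) * ∑ i, (v i) ^ 2 ≤ ∑ i, ∑ j, b i j * v i * v j := by
  have h1 : ∀ i j, (if i = j then (v i) ^ 2 else 0) - (1 / 20) * ((v i) ^ 2 + (v j) ^ 2)
      ≤ b i j * v i * v j := by
    intro i j
    by_cases hij : i = j
    · subst hij
      rw [if_pos rfl]
      have := hd i
      nlinarith [sq_nonneg (v i)]
    · rw [if_neg hij]
      have h2 := abs_lt.1 (ho i j hij)
      have h3 : |b i j * (v i * v j)| ≤ (1 / 10) * |v i * v j| := by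
        rw [abs_mul]
        exact mul_le_mul_of_nonneg_right (ho i j hij).le (abs_nonneg _)
      have h4 : |v i * v j| ≤ (1 / 2) * ((v i) ^ 2 + (v j) ^ 2) := by
        rw [abs_le]
        constructor <;> nlinarith [sq_nonneg (v i + v j), sq_nonneg (v i - v j)]
      have h5 := neg_abs_le (b i j * (v i * v j))
      nlinarith
  have h2 : ∑ i, ∑ j, ((if i = j then (v i) ^ 2 else 0) - (1 / 20) * ((v i) ^ 2 + (v j) ^ 2))
      ≤ ∑ i, ∑ j, b i j * v i * v j :=
    Finset.sum_le_sum (fun i _ => Finset.sum_le_sum (fun j _ => h1 i j))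
  refine le_trans (le_of_eq ?_) h2
  simp only [Fin.sum_univ_five]
  simp
  ring

/-- Injectivity of `A` gives full rank. -/
lemma rank_full {N : ℕ} (A : Matrix (Fin N) (Fin N) ℝ) (h : ∀ v, A *ᵥ v = 0 → v = 0) :
    A.rank = N := by
  have hu : IsUnit A := by
    rw [← Matrix.mulVec_injective_iff_isUnit]
    intro v w hvw
    have : A *ᵥ (v - w) = 0 := by
      rw [Matrix.mulVec_sub, sub_eq_zero]
      exact hvw
    exact sub_eq_zero.1 (h _ this)
  rw [Matrix.rank_of_isUnit A hu, Fintype.card_fin]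

lemma minimally_of_all {N : ℕ} {E : Set (Sym2 (Fin N))} (M : PartialMatrix E)
    (hex : ∃ A, IsCompletion M A) (h : ∀ A, IsCompletion M A → ∀ v, A *ᵥ v = 0 → v = 0) :
    MinimallyCompletable M N := by
  obtain ⟨A, hA⟩ := hex
  exact ⟨⟨A, hA, rank_full A (h A hA)⟩, fun B hB => (rank_full B (h B hB)).ge⟩

/-- Every partial matrix has a completion. -/
lemma exists_completion {N : ℕ} {E : Set (Sym2 (Fin N))} (M : PartialMatrix E) :
    ∃ A, IsCompletion M A := by
  classical
  refine ⟨fun i j => if h : s(i, j) ∈ E then M ⟨s(i, j), h⟩ else 0, ?_, ?_⟩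
  · ext i j
    simp only [Matrix.transpose_apply]
    have : s(j, i) = s(i, j) := Sym2.eq_swap
    rw [this]
  · intro i j h
    simp only [h, dif_pos]

lemma typical : FullRankTypical E0 := by
  refine ⟨U0, U0_open, U0_nonempty, ?_⟩
  intro M hM
  apply minimally_of_all M (exists_completion M)
  intro A hA v hv
  obtain ⟨hsym, hA⟩ := hA
  have hMe : ∀ e : E0, M e ∈ (if e.1 = s(0, 0) then Set.Iio (0:ℝ) else if e.1.IsDiag then Set.Ioi 1
      else Set.Ioo (-1/10) (1/10)) := fun e => hM e (Set.mem_univ e)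
  -- the entries
  have h00 : A 0 0 < 0 := by
    have hm : s((0 : Fin 6), 0) ∈ E0 := by rw [mem_E0_iff]; decide
    rw [hA 0 0 hm]
    have := hMe ⟨s(0, 0), hm⟩
    simpa using this
  have hdiag : ∀ i : Fin 5, 1 < A i.succ i.succ := by
    intro i
    have hm : s(i.succ, i.succ) ∈ E0 := by
      rw [mem_E0_iff]
      simp [Fin.succ_ne_zero]
    rw [hA _ _ hm]
    have := hMe ⟨s(i.succ, i.succ), hm⟩
    rw [if_neg (by simp), if_pos (by simp)] at this
    exact this
  have hoff : ∀ i j : Fin 5, i ≠ j → |A i.succ j.succ| < 1 / 10 := by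
    intro i j hij
    have hm : s(i.succ, j.succ) ∈ E0 := by
      rw [mem_E0_iff]
      simp [Fin.succ_ne_zero]
    rw [hA _ _ hm]
    have := hMe ⟨s(i.succ, j.succ), hm⟩
    rw [if_neg (by simp), if_neg (by simpa using hij)] at this
    rw [abs_lt]
    obtain ⟨h1, h2⟩ := this
    constructor <;> linarith
  have hrow : ∀ i, ∑ j, A i j * v j = 0 := fun i => congrFun hv i
  have hpos := form_pos (fun i j => A i.succ j.succ) hdiag hoff (fun i => v i.succ)
  -- evaluate the form
  have hform : ∑ i : Fin 5, ∑ j : Fin 5, A i.succ j.succ * v i.succ * v j.succ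
      = (v 0) ^ 2 * A 0 0 := by
    have h1 : ∀ i : Fin 5, ∑ j : Fin 5, A i.succ j.succ * v i.succ * v j.succ
        = - (v i.succ * A i.succ 0 * v 0) := by
      intro i
      have h2 := hrow i.succ
      rw [Fin.sum_univ_succ] at h2
      have h3 : ∑ j : Fin 5, A i.succ j.succ * v i.succ * v j.succ
          = v i.succ * ∑ j : Fin 5, A i.succ j.succ * v j.succ := by
        rw [Finset.mul_sum]
        apply Finset.sum_congr rfl
        intro j _
        ring
      rw [h3]
      have h4 : ∑ j : Fin 5, A i.succ j.succ * v j.succ = - (A i.succ 0 * v 0) := by linarith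
      rw [h4]
      ring
    simp only [h1]
    have h5 := hrow 0
    rw [Fin.sum_univ_succ] at h5
    have h6 : ∑ i : Fin 5, -(v i.succ * A i.succ 0 * v 0)
        = - (v 0 * ∑ i : Fin 5, A 0 i.succ * v i.succ) := by
      rw [Finset.mul_sum, ← Finset.sum_neg_distrib]
      apply Finset.sum_congr rfl
      intro i _
      have : A i.succ 0 = A 0 i.succ := hsym.apply 0 i.succ
      rw [this]
      ring
    rw [h6]
    have h7 : ∑ i : Fin 5, A 0 i.succ * v i.succ = - (A 0 0 * v 0) := by linarith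
    rw [h7]
    ring
  rw [hform] at hpos
  have hsum : 0 ≤ ∑ i : Fin 5, (v i.succ) ^ 2 := Finset.sum_nonneg (fun i _ => sq_nonneg _)
  have h8 : (v 0) ^ 2 * A 0 0 ≤ 0 := by nlinarith [sq_nonneg (v 0)]
  have h9 : ∑ i : Fin 5, (v i.succ) ^ 2 = 0 := by linarith
  have h10 : (v 0) ^ 2 = 0 := by nlinarith [sq_nonneg (v 0)]
  have h11 : ∀ i : Fin 5, v i.succ = 0 := by
    intro i
    have := (Finset.sum_eq_zero_iff_of_nonneg (fun i _ => sq_nonneg (v (Fin.succ i)))).1 h9 i
      (Finset.mem_univ i)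
    exact pow_eq_zero_iff (two_ne_zero) |>.1 this
  funext i
  refine Fin.cases ?_ ?_ i
  · exact pow_eq_zero_iff (two_ne_zero) |>.1 h10
  · intro j; exact h11 j

/-- The full matrix of the example with the unspecified entries set to zero. -/
def A0 : Matrix (Fin 6) (Fin 6) ℝ :=
  !![0, 0, 0, 0, 0, 1;
     0, 1, 0, 0, 0, 0;
     0, 0, 1, 0, 0, 0;
     0, 0, 0, -1, 0, 0;
     0, 0, 0, 0, -1, 0;
     1, 0, 0, 0, 0, 0]

/-- The partial matrix of the counterexample. -/
noncomputable def M0 : PartialMatrix E0 := fun e => Sym2.lift ⟨fun i j => (A0 i j + A0 j i) / 2,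
  fun i j => by ring⟩ e.1

lemma A0_symm (i j : Fin 6) : A0 i j = A0 j i := by
  fin_cases i <;> fin_cases j <;> rfl

lemma completion_entries {A : Matrix (Fin 6) (Fin 6) ℝ} (hA : IsCompletion M0 A) (i j : Fin 6)
    (h : s(i, j) ∈ E0) : A i j = A0 i j := by
  rw [hA.2 i j h]
  unfold M0
  simp only [Sym2.lift_mk]
  rw [A0_symm j i]
  ring

/-- the quadratic form of a completion -/
lemma completion_mulVec {A : Matrix (Fin 6) (Fin 6) ℝ} (hA : IsCompletion M0 A) (v : Fin 6 → ℝ) :
    A *ᵥ v = ![A 0 1 * v 1 + A 0 2 * v 2 + A 0 3 * v 3 + A 0 4 * v 4 + v 5,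
      A 0 1 * v 0 + v 1, A 0 2 * v 0 + v 2, A 0 3 * v 0 - v 3, A 0 4 * v 0 - v 4, v 0] := by
  have e : ∀ i j, s(i, j) ∈ E0 → A i j = A0 i j := completion_entries hA
  have s1 : A 1 0 = A 0 1 := hA.1.apply 0 1
  have s2 : A 2 0 = A 0 2 := hA.1.apply 0 2
  have s3 : A 3 0 = A 0 3 := hA.1.apply 0 3
  have s4 : A 4 0 = A 0 4 := hA.1.apply 0 4
  funext i
  simp only [Matrix.mulVec, dotProduct, Fin.sum_univ_six]
  fin_cases i
  · simp [e 0 0 (by rw [mem_E0_iff]; decide), e 0 5 (by rw [mem_E0_iff]; decide), A0]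
  · simp [s1, e 1 1 (by rw [mem_E0_iff]; decide), e 1 2 (by rw [mem_E0_iff]; decide),
      e 1 3 (by rw [mem_E0_iff]; decide), e 1 4 (by rw [mem_E0_iff]; decide),
      e 1 5 (by rw [mem_E0_iff]; decide), A0]
  · simp [s2, e 2 1 (by rw [mem_E0_iff]; decide), e 2 2 (by rw [mem_E0_iff]; decide),
      e 2 3 (by rw [mem_E0_iff]; decide), e 2 4 (by rw [mem_E0_iff]; decide),
      e 2 5 (by rw [mem_E0_iff]; decide), A0]
  · simp [s3, e 3 1 (by rw [mem_E0_iff]; decide), e 3 2 (by rw [mem_E0_iff]; decide),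
      e 3 3 (by rw [mem_E0_iff]; decide), e 3 4 (by rw [mem_E0_iff]; decide),
      e 3 5 (by rw [mem_E0_iff]; decide), A0]
    ring
  · simp [s4, e 4 1 (by rw [mem_E0_iff]; decide), e 4 2 (by rw [mem_E0_iff]; decide),
      e 4 3 (by rw [mem_E0_iff]; decide), e 4 4 (by rw [mem_E0_iff]; decide),
      e 4 5 (by rw [mem_E0_iff]; decide), A0]
    ring
  · simp [e 5 0 (by rw [mem_E0_iff]; decide), e 5 1 (by rw [mem_E0_iff]; decide),
      e 5 2 (by rw [mem_E0_iff]; decide), e 5 3 (by rw [mem_E0_iff]; decide),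
      e 5 4 (by rw [mem_E0_iff]; decide), e 5 5 (by rw [mem_E0_iff]; decide), A0]

lemma completion_form {A : Matrix (Fin 6) (Fin 6) ℝ} (hA : IsCompletion M0 A) (v : Fin 6 → ℝ) :
    v ⬝ᵥ (A *ᵥ v) = 2 * v 0 * (A 0 1 * v 1 + A 0 2 * v 2 + A 0 3 * v 3 + A 0 4 * v 4 + v 5)
      + (v 1) ^ 2 + (v 2) ^ 2 - (v 3) ^ 2 - (v 4) ^ 2 := by
  rw [completion_mulVec hA, dotProduct, Fin.sum_univ_six]
  simp
  ring

lemma completion_injective {A : Matrix (Fin 6) (Fin 6) ℝ} (hA : IsCompletion M0 A)
    (v : Fin 6 → ℝ) (hv : A *ᵥ v = 0) : v = 0 := by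
  rw [completion_mulVec hA] at hv
  have h0 := congrFun hv 0
  have h1 := congrFun hv 1
  have h2 := congrFun hv 2
  have h3 := congrFun hv 3
  have h4 := congrFun hv 4
  have h5 := congrFun hv 5
  simp at h0 h1 h2 h3 h4 h5
  rw [h5] at h1 h2 h3 h4
  simp at h1 h2 h3 h4
  rw [h1, h2, h3, h4] at h0
  simp at h0
  funext i
  fin_cases i
  · exact h5
  · exact h1
  · exact h2
  · exact h3
  · exact h4
  · exact h0

/-- positive subspace -/
noncomputable def wpos (A : Matrix (Fin 6) (Fin 6) ℝ) : (Fin 3 → ℝ) →ₗ[ℝ] (Fin 6 → ℝ) where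
  toFun x := ![x 0, x 1, x 2, 0, 0, x 0 - A 0 1 * x 1 - A 0 2 * x 2]
  map_add' x y := by
    funext i
    fin_cases i <;> simp
    ring
  map_smul' c x := by
    funext i
    fin_cases i <;> simp
    ring

/-- negative subspace -/
noncomputable def wneg (A : Matrix (Fin 6) (Fin 6) ℝ) : (Fin 3 → ℝ) →ₗ[ℝ] (Fin 6 → ℝ) where
  toFun x := ![x 0, 0, 0, x 1, x 2, - x 0 - A 0 3 * x 1 - A 0 4 * x 2]
  map_add' x y := by
    funext i
    fin_cases i <;> simp
    ring
  map_smul' c x := by
    funext i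
    fin_cases i <;> simp
    ring

lemma sq_sum_pos {x : Fin 3 → ℝ} (hx : x ≠ 0) : 0 < 2 * (x 0) ^ 2 + (x 1) ^ 2 + (x 2) ^ 2 := by
  by_contra hcon
  push Not at hcon
  apply hx
  have h0 : (x 0) ^ 2 = 0 := by nlinarith [sq_nonneg (x 0), sq_nonneg (x 1), sq_nonneg (x 2)]
  have h1 : (x 1) ^ 2 = 0 := by nlinarith [sq_nonneg (x 0), sq_nonneg (x 1), sq_nonneg (x 2)]
  have h2 : (x 2) ^ 2 = 0 := by nlinarith [sq_nonneg (x 0), sq_nonneg (x 1), sq_nonneg (x 2)]
  funext i
  fin_cases i
  · exact pow_eq_zero_iff (two_ne_zero) |>.1 h0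
  · exact pow_eq_zero_iff (two_ne_zero) |>.1 h1
  · exact pow_eq_zero_iff (two_ne_zero) |>.1 h2

lemma completion_inertia {A : Matrix (Fin 6) (Fin 6) ℝ} (hA : IsCompletion M0 A) :
    HasInertia A 3 3 := by
  have hH : A.IsHermitian := by
    rw [Matrix.IsHermitian, Matrix.conjTranspose_eq_transpose_of_trivial]
    exact hA.1
  refine ⟨hH, ?_⟩
  apply inertia_of_subspaces A hH 3 3 (by simp) (wpos A) _ (wneg A)
  · intro x hx
    rw [completion_form hA]
    simp [wneg]
    have := sq_sum_pos hx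
    nlinarith
  · intro x hx
    rw [completion_form hA]
    simp [wpos]
    have := sq_sum_pos hx
    nlinarith

lemma no_bicoloring (c : Fin 6 → Bool) (hc : IsProperBicoloring E0 c)
    (h3 : (Finset.univ.filter (fun i => c i = true)).card = 3) : False := by
  have h1 : c 0 ≠ c 1 := hc 0 1 (by rw [mem_E0_iff]; decide)
  have h2 : c 0 ≠ c 2 := hc 0 2 (by rw [mem_E0_iff]; decide)
  have h4 : c 0 ≠ c 3 := hc 0 3 (by rw [mem_E0_iff]; decide)
  have h5 : c 0 ≠ c 4 := hc 0 4 (by rw [mem_E0_iff]; decide)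
  rw [Finset.card_filter, Fin.sum_univ_six] at h3
  generalize c 0 = a0 at *
  generalize c 1 = a1 at *
  generalize c 2 = a2 at *
  generalize c 3 = a3 at *
  generalize c 4 = a4 at *
  generalize c 5 = a5 at *
  revert a0 a1 a2 a3 a4 a5
  decide

/-- Q1 is false. More precisely, for the graph `E0` on six vertices (whose complement is a star with
four leaves together with an isolated vertex), `E0` is full-rank typical, the partial matrix `M0`
is minimally completable to rank `6`, all its completions have inertia `(3,3,0)`, but no proper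
bicoloring of the complement has three red and three blue vertices. -/
theorem result :
    (FullRankTypical E0 ∧ MinimallyCompletable M0 6 ∧ (∀ A, IsCompletion M0 A → HasInertia A 3 3) ∧
      ¬ ∃ c : Fin 6 → Bool, IsProperBicoloring E0 c ∧
        (Finset.univ.filter (fun i => c i = true)).card = 3 ∧
        (Finset.univ.filter (fun i => c i = false)).card = 3) ∧ ¬ Q1 := by
  have hM : MinimallyCompletable M0 6 := minimally_of_all M0 (exists_completion M0)
    (fun A hA v hv => completion_injective hA v hv)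
  have hno : ¬ ∃ c : Fin 6 → Bool, IsProperBicoloring E0 c ∧
        (Finset.univ.filter (fun i => c i = true)).card = 3 ∧
        (Finset.univ.filter (fun i => c i = false)).card = 3 := by
    rintro ⟨c, hc, h3, _⟩
    exact no_bicoloring c hc h3
  refine ⟨⟨typical, hM, fun A hA => completion_inertia hA, hno⟩, ?_⟩
  intro hQ
  exact hno (hQ 6 (by norm_num) E0 typical M0 hM 3 3 (by norm_num)
    (fun A hA => completion_inertia hA))

end Pool.Agent.Results.MP_97e4cf_co.InertiaBicoloringDisproof
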